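import Mathlib

set_option autoImplicit false

/-! Divisibility up to factors prime to `p`, and falling factorials in commutative rings. -/

namespace Pool.Agent.T2H43.RQ

open Finset

section LD
variable {S : Type*} [CommRing S]

/-- `g` divides a multiple of `α` by an integer prime to `p` -/
def LD (p : ℕ) (g : ℕ) (α : S) : Prop := ∃ N : ℕ, ¬ p ∣ N ∧ (g : S) ∣ (N : S) * α

lemma LD.of_dvd {p : ℕ} (hp : p.Prime) {g : ℕ} {α : S} (h : (g : S) ∣ α) : LD p g α :=
  ⟨1, fun h1 => hp.one_lt.not_ge (Nat.le_of_dvd one_pos h1), by rw [Nat.cast_one, one_mul]; exact h⟩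

lemma LD.zero {p : ℕ} (hp : p.Prime) (g : ℕ) : LD p g (0 : S) := LD.of_dvd hp (dvd_zero _)

lemma LD.mul {p : ℕ} (hp : p.Prime) {g h : ℕ} {α β : S} (h1 : LD p g α) (h2 : LD p h β) :
    LD p (g * h) (α * β) := by
  obtain ⟨N, hN, hN'⟩ := h1
  obtain ⟨M, hM, hM'⟩ := h2
  refine ⟨N * M, fun h => ?_, ?_⟩
  · rcases hp.dvd_mul.1 h with h | h
    · exact hN h
    · exact hM h
  · have := mul_dvd_mul hN' hM'
    convert this using 1
    · push_cast; ring
    · push_cast; ring

lemma LD.add {p : ℕ} (hp : p.Prime) {g : ℕ} {α β : S} (h1 : LD p g α) (h2 : LD p g β) :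
    LD p g (α + β) := by
  obtain ⟨N, hN, hN'⟩ := h1
  obtain ⟨M, hM, hM'⟩ := h2
  refine ⟨N * M, fun h => ?_, ?_⟩
  · rcases hp.dvd_mul.1 h with h | h
    · exact hN h
    · exact hM h
  · have e : ((N * M : ℕ) : S) * (α + β) = M * (N * α) + N * (M * β) := by push_cast; ring
    rw [e]
    exact dvd_add (Dvd.dvd.mul_left hN' _) (Dvd.dvd.mul_left hM' _)

lemma LD.neg {p : ℕ} {g : ℕ} {α : S} (h1 : LD p g α) : LD p g (-α) := by
  obtain ⟨N, hN, hN'⟩ := h1
  refine ⟨N, hN, ?_⟩
  rw [mul_neg]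
  exact (dvd_neg).2 hN'

lemma LD.mul_right {p : ℕ} {g : ℕ} {α : S} (h1 : LD p g α) (β : S) : LD p g (α * β) := by
  obtain ⟨N, hN, hN'⟩ := h1
  refine ⟨N, hN, ?_⟩
  rw [← mul_assoc]
  exact Dvd.dvd.mul_right hN' _

lemma LD.mul_left {p : ℕ} {g : ℕ} {α : S} (h1 : LD p g α) (β : S) : LD p g (β * α) := by
  rw [mul_comm]
  exact h1.mul_right β

lemma LD.sum {p : ℕ} (hp : p.Prime) {g : ℕ} {ι : Type*} (s : Finset ι) (f : ι → S)
    (h : ∀ i ∈ s, LD p g (f i)) : LD p g (∑ i ∈ s, f i) := by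
  classical
  induction s using Finset.induction_on with
  | empty => rw [sum_empty]; exact LD.zero hp g
  | insert a s ha ih =>
    rw [sum_insert ha]
    exact (h a (mem_insert_self _ _)).add hp (ih fun i hi => h i (mem_insert_of_mem hi))

lemma LD.prod {p : ℕ} (hp : p.Prime) {ι : Type*} (s : Finset ι) (g : ι → ℕ) (f : ι → S)
    (h : ∀ i ∈ s, LD p (g i) (f i)) : LD p (∏ i ∈ s, g i) (∏ i ∈ s, f i) := by
  classical
  induction s using Finset.induction_on with
  | empty => rw [prod_empty, prod_empty]; exact LD.of_dvd hp (by simp)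
  | insert a s ha ih =>
    rw [prod_insert ha, prod_insert ha]
    exact (h a (mem_insert_self _ _)).mul hp (ih fun i hi => h i (mem_insert_of_mem hi))

lemma LD.dvd_left {p : ℕ} {g h : ℕ} {α : S} (h1 : LD p g α) (hd : h ∣ g) : LD p h α := by
  obtain ⟨N, hN, hN'⟩ := h1
  exact ⟨N, hN, ((Nat.cast_dvd_cast hd : (h : S) ∣ (g : S))).trans hN'⟩

/-- a factor prime to `p` is not important -/
lemma LD.coprime_mul {p : ℕ} (hp : p.Prime) {g c : ℕ} (hc : ¬ p ∣ c) {α : S} (h1 : LD p g α) :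
    LD p (g * c) α := by
  obtain ⟨N, hN, hN'⟩ := h1
  refine ⟨N * c, fun h => ?_, ?_⟩
  · rcases hp.dvd_mul.1 h with h | h
    · exact hN h
    · exact hc h
  · have := mul_dvd_mul_right hN' (c : S)
    convert this using 1
    · push_cast; ring
    · push_cast; ring

end LD

/-- local divisibility at all primes -/
lemma dvd_of_LD (g : ℕ) (hg : g ≠ 0) (z : ℤ) (h : ∀ p : ℕ, p.Prime → LD p g z) : (g : ℤ) ∣ z := by
  set G := Nat.gcd g z.natAbs with hG
  have hG0 : 0 < G := Nat.gcd_pos_of_pos_left _ (Nat.pos_of_ne_zero hg)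
  obtain ⟨a, ha⟩ := Nat.gcd_dvd_left g z.natAbs
  obtain ⟨b, hb⟩ := Nat.gcd_dvd_right g z.natAbs
  rw [← hG] at ha hb
  have hcop : Nat.Coprime a b := by
    have h1 := Nat.coprime_div_gcd_div_gcd (m := g) (n := z.natAbs) hG0
    rw [← hG] at h1
    have e1 : g / G = a := by rw [ha]; exact Nat.mul_div_cancel_left a hG0
    have e2 : z.natAbs / G = b := by rw [hb]; exact Nat.mul_div_cancel_left b hG0
    rwa [e1, e2] at h1
  have ha1 : a = 1 := by
    by_contra hne
    obtain ⟨p, hp, hpa⟩ := Nat.exists_prime_and_dvd hne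
    obtain ⟨N, hN, hN'⟩ := h p hp
    have h1 : g ∣ N * z.natAbs := by
      have := Int.natAbs_dvd_natAbs.2 hN'
      simpa [Int.natAbs_mul] using this
    rw [ha, hb] at h1
    have h2 : a ∣ N * b := by
      have : G * a ∣ G * (N * b) := by
        convert h1 using 1
        ring
      exact Nat.dvd_of_mul_dvd_mul_left hG0 this
    have h3 : a ∣ N := hcop.dvd_of_dvd_mul_right h2
    exact hN (hpa.trans h3)
  rw [ha1, mul_one] at ha
  rw [ha, hG]
  have : (G : ℤ) ∣ z := Int.natCast_dvd.2 (hG ▸ Nat.gcd_dvd_right g z.natAbs)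
  rw [← hG]
  exact this

section P
variable {S : Type*} [CommRing S]

/-- the falling factorial -/
def P (X : S) (k : ℕ) : S := ∏ j ∈ range k, (X - j)

lemma P_succ (X : S) (k : ℕ) : P X (k + 1) = P X k * (X - k) := prod_range_succ _ _

lemma smeval_eq (X : S) (k : ℕ) : (descPochhammer ℤ k).smeval X = P X k := by
  rw [← Polynomial.aeval_eq_smeval, P, ← descPochhammer_eval_eq_prod_range,
    ← descPochhammer_map (algebraMap ℤ S) k, Polynomial.eval_map_algebraMap]

/-- Vandermonde -/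
lemma P_add (X Y : S) (k : ℕ) : P (X + Y) k =
    ∑ ij ∈ antidiagonal k, (Nat.choose k ij.1 : S) * (P X ij.1 * P Y ij.2) := by
  have h := Ring.descPochhammer_smeval_add (r := X) (s := Y) k (Commute.all X Y)
  simp only [smeval_eq] at h
  exact h

lemma P_map {T : Type*} [CommRing T] (φ : S →+* T) (X : S) (k : ℕ) : φ (P X k) = P (φ X) k := by
  unfold P
  rw [map_prod]
  refine prod_congr rfl fun j _ => ?_
  rw [map_sub, map_natCast]

lemma P_int (s : ℤ) (k : ℕ) : (k.factorial : ℤ) ∣ P s k := by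
  have h := Ring.descPochhammer_eq_factorial_smul_choose s k
  rw [smeval_eq] at h
  rw [h, nsmul_eq_mul]
  exact dvd_mul_right _ _

lemma P_neg (X : S) (k : ℕ) : P (-X) k = (-1) ^ k * P (X + ((k : ℤ) - 1 : ℤ)) k := by
  unfold P
  rw [← prod_range_reflect (fun j : ℕ => (X + ((k : ℤ) - 1 : ℤ)) - (j : S)), ← card_range k,
    ← prod_const, card_range, ← prod_mul_distrib]
  refine prod_congr rfl fun j hj => ?_
  rw [mem_range] at hj
  have e : ((k - 1 - j : ℕ) : S) = (k : S) - 1 - j := by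
    rw [Nat.cast_sub (by omega), Nat.cast_sub (by omega)]
    push_cast
    ring
  rw [e]
  push_cast
  ring

end P

end Pool.Agent.T2H43.RQ
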