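import Pool.Agent.T2H43.RQ.Nec

set_option autoImplicit false

/-! The conductor. -/

namespace Pool.Agent.T2H43.RQ

open Finset Polynomial Pool.Agent.R920.CH

open Classical in
/-- the exponent of `p` in the conductor: the number of digits to the base `p` of `⌊n / (2 p)⌋` for the
ramified primes, of `⌊n / (p + 1)⌋` for the inert primes, and zero for the split primes -/
noncomputable def expo (d : ℤ) (n p : ℕ) : ℕ :=
  if (p : ℤ) ∣ d then (Nat.digits p (n / (2 * p))).length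
  else if ∃ t : ℤ, (4 * p : ℤ) ∣ t ^ 2 - d then 0
  else (Nat.digits p (n / (p + 1))).length

/-- the conductor -/
noncomputable def conductor (d : ℤ) (n : ℕ) : ℕ :=
  ∏ p ∈ (range (n + 1)).filter Nat.Prime, p ^ expo d n p

lemma digits_le (p q n v : ℕ) (hp : 1 < p) (hq : 0 < q) :
    (Nat.digits p (n / q)).length ≤ v ↔ n < p ^ v * q := by
  rw [Nat.digits_length_le_iff hp, Nat.div_lt_iff_lt_mul hq]

lemma bound_iff (n : ℕ) (d m : ℤ) (hd : IsFund d) :
    Bound n d m ↔ ∀ p : ℕ, p.Prime → expo d n p ≤ m.natAbs.factorization p := by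
  unfold Bound
  refine forall_congr' fun p => forall_congr' fun hp => ?_
  unfold expo
  by_cases h1 : (p : ℤ) ∣ d
  · rw [if_pos h1, digits_le p (2 * p) n _ hp.one_lt (by have := hp.pos; omega)]
    have h2 := hd.root p hp h1
    have e : p ^ (m.natAbs.factorization p) * (2 * p) = 2 * p ^ (m.natAbs.factorization p + 1) := by ring
    rw [e]
    exact ⟨fun h => h.2 h1, fun h => ⟨fun h3 => absurd h2 h3, fun _ => h⟩⟩
  · rw [if_neg h1]
    by_cases h2 : ∃ t : ℤ, (4 * p : ℤ) ∣ t ^ 2 - d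
    · rw [if_pos h2]
      exact ⟨fun _ => Nat.zero_le _, fun _ => ⟨fun h3 => absurd h2 h3, fun h3 => absurd h3 h1⟩⟩
    · rw [if_neg h2, digits_le p (p + 1) n _ hp.one_lt (Nat.succ_pos p)]
      exact ⟨fun h => h.1 h2, fun h => ⟨fun _ => h, fun h3 => absurd h3 h1⟩⟩

lemma expo_eq_zero (d : ℤ) (n p : ℕ) (h : n < p) : expo d n p = 0 := by
  unfold expo
  have h1 : n / (2 * p) = 0 := Nat.div_eq_of_lt (by omega)
  have h2 : n / (p + 1) = 0 := Nat.div_eq_of_lt (by omega)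
  rw [h1, h2]
  simp

lemma conductor_dvd (d : ℤ) (n : ℕ) (m : ℕ) (hm : m ≠ 0) :
    conductor d n ∣ m ↔ ∀ p : ℕ, p.Prime → expo d n p ≤ m.factorization p := by
  constructor
  · intro h p hp
    by_cases hpn : p ≤ n
    · rw [← hp.pow_dvd_iff_le_factorization hm]
      refine (dvd_prod_of_mem (fun p => p ^ expo d n p) ?_).trans h
      rw [mem_filter, mem_range]
      exact ⟨by omega, hp⟩
    · rw [expo_eq_zero d n p (by omega)]
      exact Nat.zero_le _
  · intro h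
    unfold conductor
    apply Finset.prod_dvd_of_isRelPrime
    · intro p hp q hq hpq
      simp only [coe_filter, Set.mem_ofPred_eq] at hp hq
      rw [Function.onFun, ← Nat.coprime_iff_isRelPrime]
      exact Nat.Coprime.pow _ _ ((Nat.coprime_primes hp.2 hq.2).2 hpq)
    · intro p hp
      rw [mem_filter] at hp
      rw [hp.2.pow_dvd_iff_le_factorization hm]
      exact h p hp.2

/-- every discriminant is a fundamental discriminant times a square -/
lemma exists_fund (D : ℤ) (hD : D ≠ 0) (h : D % 4 = 0 ∨ D % 4 = 1) :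
    ∃ d m : ℤ, IsFund d ∧ 0 < m ∧ D = d * m ^ 2 := by
  obtain ⟨a, b, hab, ha⟩ := Nat.sq_mul_squarefree D.natAbs
  obtain ⟨e, he, hes⟩ : ∃ e : ℤ, D = e * (b : ℤ) ^ 2 ∧ Squarefree e := by
    refine ⟨D.sign * a, ?_, ?_⟩
    · have h1 : D = D.sign * (D.natAbs : ℤ) := (Int.sign_mul_natAbs D).symm
      have h2 : (D.natAbs : ℤ) = (b : ℤ) ^ 2 * a := by exact_mod_cast hab.symm
      nth_rewrite 1 [h1]
      rw [h2]
      ring
    · rw [← Int.squarefree_natAbs, Int.natAbs_mul, Int.natAbs_sign_of_ne_zero hD, one_mul,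
        Int.natAbs_natCast]
      exact ha
  have hb : (b : ℤ) ≠ 0 := by
    intro h0
    rw [h0] at he
    apply hD
    rw [he]
    ring
  have hb0 : (0 : ℤ) < b := lt_of_le_of_ne (Int.natCast_nonneg b) (Ne.symm hb)
  have he4 : ¬ (4 : ℤ) ∣ e := by
    intro h4
    have := hes 2 (by norm_num; exact h4)
    rw [Int.isUnit_iff] at this
    omega
  rcases Int.even_or_odd (b : ℤ) with ⟨g, hg⟩ | ⟨g, hg⟩
  · by_cases h1 : e % 4 = 1
    · exact ⟨e, b, Or.inl ⟨h1, hes⟩, hb0, he⟩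
    · refine ⟨4 * e, g, Or.inr ⟨e, rfl, hes, by omega⟩, by omega, ?_⟩
      rw [he, hg]
      ring
  · have h2 : (b : ℤ) ^ 2 = 4 * (g ^ 2 + g) + 1 := by rw [hg]; ring
    have h3 : e * (4 * (g ^ 2 + g) + 1) = 4 * (e * (g ^ 2 + g)) + e := by ring
    have h4 : D % 4 = e % 4 := by
      rw [he, h2, h3]
      omega
    exact ⟨e, b, Or.inl ⟨by omega, hes⟩, hb0, he⟩

lemma isFund_one : IsFund 1 := Or.inl ⟨by norm_num, squarefree_one⟩

lemma bound_one (n : ℕ) (m : ℤ) : Bound n 1 m := by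
  intro p hp
  refine ⟨fun h => absurd ⟨1, by norm_num⟩ h, fun h => absurd h ?_⟩
  exact (Nat.prime_iff_prime_int.1 hp).not_dvd_one

/-- **The classification.** -/
theorem RR_conductor (n : ℕ) (d m c₁ c₂ : ℤ) (hd : IsFund d)
    (h : c₁ ^ 2 - 4 * c₂ = d * m ^ 2) :
    RiemannRoch n (poly2 c₁ c₂) ↔ (conductor d n : ℤ) ∣ m := by
  by_cases hm : m = 0
  · refine ⟨fun _ => by rw [hm]; exact dvd_zero _, fun _ => ?_⟩
    exact suff n 1 0 c₁ c₂ isFund_one (by rw [h, hm]; ring) (bound_one n 0)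
  · rw [classify n d m c₁ c₂ hd hm h, bound_iff n d m hd, Int.natCast_dvd,
      conductor_dvd d n _ (Int.natAbs_ne_zero.2 hm)]

lemma exists_decomp (c₁ c₂ : ℤ) : ∃ d m : ℤ, IsFund d ∧ c₁ ^ 2 - 4 * c₂ = d * m ^ 2 := by
  by_cases h0 : c₁ ^ 2 - 4 * c₂ = 0
  · exact ⟨1, 0, isFund_one, by rw [h0]; ring⟩
  · obtain ⟨d, m, hd, _, h⟩ := exists_fund (c₁ ^ 2 - 4 * c₂) h0 (by
      rcases Int.even_or_odd c₁ with ⟨a, ha⟩ | ⟨a, ha⟩
      · left
        have : c₁ ^ 2 = 4 * a ^ 2 := by rw [ha]; ring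
        omega
      · right
        have : c₁ ^ 2 = 4 * (a ^ 2 + a) + 1 := by rw [ha]; ring
        omega)
    exact ⟨d, m, hd, h⟩

end Pool.Agent.T2H43.RQ
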