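import Pool.Agent.T2H43.RQ.Split
import Pool.Agent.T2H43.RR.Cons

set_option autoImplicit false

/-! The Riemann-Roch conditions of rank two from the traces of falling factorials. -/

namespace Pool.Agent.T2H43.RQ

open Finset QuadraticAlgebra Polynomial Pool.Agent.R920.CH

variable {A B : ℤ}

lemma prod_P (x : ℂ) (k : ℕ) : aeval x (bin k) = (k.factorial : ℂ)⁻¹ * P x k := aeval_bin k x

theorem RR_of_trace (n : ℕ) (X : QuadraticAlgebra ℤ A B)
    (h : ∀ k ≤ n, (k.factorial : ℤ) ∣ QuadraticAlgebra.trace (P X k)) :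
    RiemannRoch n (poly2 (QuadraticAlgebra.trace X) (QuadraticAlgebra.norm X)) := by
  intro g hg hn
  obtain ⟨x, y, hxy, hs, hp⟩ := roots2 (QuadraticAlgebra.trace X) (QuadraticAlgebra.norm X)
  rw [hxy]
  obtain ⟨r, hr⟩ := IsAlgClosed.exists_pow_nat_eq ((B : ℂ) ^ 2 + 4 * A) (n := 2) (by norm_num)
  obtain ⟨w, hw⟩ : ∃ w : ℂ, w * w = A • (1 : ℂ) + B • w := by
    refine ⟨(B + r) / 2, ?_⟩
    rw [zsmul_eq_mul, zsmul_eq_mul]
    linear_combination (1 / 4 : ℂ) * hr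
  let φ : QuadraticAlgebra ℤ A B →+* ℂ :=
    (QuadraticAlgebra.lift ⟨w, hw⟩ : QuadraticAlgebra ℤ A B →ₐ[ℤ] ℂ).toRingHom
  have hstar : ∀ k, star (P X k) = P (star X) k := by
    intro k
    have := P_map (starRingEnd (QuadraticAlgebra ℤ A B)) X k
    exact this
  obtain ⟨c, hc⟩ := Pool.Agent.T2H43.RR.polya n g hg hn
  have key : ∀ k ≤ n, ∃ z : ℤ, (aeval (φ X) (bin k) + aeval (φ (star X)) (bin k)) = z := by
    intro k hk
    obtain ⟨z, hz⟩ := h k hk
    refine ⟨z, ?_⟩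
    rw [prod_P, prod_P, ← mul_add]
    have h0 : (k.factorial : ℂ) ≠ 0 := by exact_mod_cast k.factorial_ne_zero
    rw [← P_map, ← P_map, ← hstar, ← map_add, ← trace_cast, map_intCast, hz]
    push_cast
    field_simp
  have hsum : ∃ z : ℤ, (aeval (φ X) g + aeval (φ (star X)) g) = z := by
    have hall : ∀ k, ∃ z : ℤ, k ≤ n → (aeval (φ X) (bin k) + aeval (φ (star X)) (bin k)) = z := by
      intro k
      by_cases hk : k ≤ n
      · obtain ⟨z, hz⟩ := key k hk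
        exact ⟨z, fun _ => hz⟩
      · exact ⟨0, fun h => absurd h hk⟩
    choose z hz using hall
    refine ⟨∑ k ∈ range (n + 1), c k * z k, ?_⟩
    rw [hc, map_sum, map_sum, ← sum_add_distrib]
    push_cast
    refine sum_congr rfl fun k hk => ?_
    rw [← hz k (Nat.lt_succ_iff.1 (mem_range.1 hk)), map_mul, map_mul, aeval_C, aeval_C]
    simp
    ring
  have e1 : φ X + φ (star X) = (QuadraticAlgebra.trace X : ℤ) := by
    rw [← map_add, ← trace_cast, map_intCast]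
  have e2 : φ X * φ (star X) = (QuadraticAlgebra.norm X : ℤ) := by
    rw [← map_mul, ← algebraMap_norm_eq_mul_star, eq_intCast, map_intCast]
  obtain ⟨z, hz⟩ := hsum
  refine ⟨z, ?_⟩
  rw [← hz]
  have e3 : (φ X - x) * (φ X - y) = 0 := by
    have h1 : φ (star X) = x + y - φ X := by rw [hs, ← e1]; ring
    rw [h1, ← hp] at e2
    linear_combination -e2
  rcases mul_eq_zero.1 e3 with h1 | h1
  · have h2 : φ X = x := sub_eq_zero.1 h1
    have h3 : φ (star X) = y := by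
      have : φ (star X) = x + y - φ X := by rw [hs, ← e1]; ring
      rw [this, h2]
      ring
    rw [h2, h3]
    simp
  · have h2 : φ X = y := sub_eq_zero.1 h1
    have h3 : φ (star X) = x := by
      have : φ (star X) = x + y - φ X := by rw [hs, ← e1]; ring
      rw [this, h2]
      ring
    rw [h2, h3]
    simp
    ring

/-- fundamental discriminants -/
def IsFund (d : ℤ) : Prop :=
  (d % 4 = 1 ∧ Squarefree d) ∨ ∃ e : ℤ, d = 4 * e ∧ Squarefree e ∧ (e % 4 = 2 ∨ e % 4 = 3)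

/-- the numerical condition -/
def Bound (n : ℕ) (d m : ℤ) : Prop := ∀ p : ℕ, p.Prime →
  ((¬ ∃ t : ℤ, (4 * p : ℤ) ∣ t ^ 2 - d) → n < p ^ (m.natAbs.factorization p) * (p + 1)) ∧
  ((p : ℤ) ∣ d → n < 2 * p ^ (m.natAbs.factorization p + 1))

lemma IsFund.emod {d : ℤ} (h : IsFund d) : d % 4 = 0 ∨ d % 4 = 1 := by
  rcases h with ⟨h, _⟩ | ⟨e, h, _⟩
  · exact Or.inr h
  · left
    omega

lemma coprime_four (p : ℕ) (hp : p.Prime) (h2 : p ≠ 2) : IsCoprime (4 : ℤ) (p : ℤ) := by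
  have h1 : Nat.Coprime 2 p := (Nat.coprime_primes Nat.prime_two hp).2 (Ne.symm h2)
  have h3 : Nat.Coprime (2 ^ 2) p := h1.pow_left 2
  have h4 := Nat.isCoprime_iff_coprime.2 h3
  exact_mod_cast h4

/-- from roots modulo `p` to roots modulo `4 p` -/
lemma lift_root {d : ℤ} (hd : d % 4 = 0 ∨ d % 4 = 1) (p : ℕ) (hp : p.Prime) (h2 : p ≠ 2)
    (h : ∃ t : ℤ, (p : ℤ) ∣ t ^ 2 - d) : ∃ t : ℤ, (4 * p : ℤ) ∣ t ^ 2 - d := by
  obtain ⟨t, ht⟩ := h
  have hcop := coprime_four p hp h2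
  obtain ⟨q, hq⟩ := hp.odd_of_ne_two h2
  have key : ∀ s : ℤ, s % 2 = d % 2 → (4 : ℤ) ∣ s ^ 2 - d := by
    intro s hs
    rcases Int.even_or_odd s with ⟨a, ha⟩ | ⟨a, ha⟩
    · have h3 : s ^ 2 = 4 * a ^ 2 := by rw [ha]; ring
      rw [h3]
      omega
    · have h3 : s ^ 2 = 4 * (a ^ 2 + a) + 1 := by rw [ha]; ring
      rw [h3]
      omega
  by_cases hpar : t % 2 = d % 2
  · exact ⟨t, hcop.mul_dvd (key t hpar) ht⟩
  · refine ⟨t + p, hcop.mul_dvd (key _ (by rw [hq]; push_cast; omega)) ?_⟩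
    have e : (t + (p : ℤ)) ^ 2 - d = (t ^ 2 - d) + p * (2 * t + p) := by ring
    rw [e]
    exact dvd_add ht (dvd_mul_right _ _)

/-- at the ramified primes there are roots -/
lemma IsFund.root {d : ℤ} (h : IsFund d) (p : ℕ) (hp : p.Prime) (hpd : (p : ℤ) ∣ d) :
    ∃ t : ℤ, (4 * p : ℤ) ∣ t ^ 2 - d := by
  by_cases h2 : p = 2
  · subst h2
    rcases h with ⟨h, _⟩ | ⟨e, h, _⟩
    · exfalso
      have : (2 : ℤ) ∣ d := by exact_mod_cast hpd
      omega
    · refine ⟨2 * e, ?_⟩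
      rw [h]
      have e1 : (2 * e) ^ 2 - 4 * e = 4 * (e * (e - 1)) := by ring
      rw [e1]
      apply mul_dvd_mul_left
      rcases Int.even_or_odd e with ⟨a, ha⟩ | ⟨a, ha⟩
      · exact ⟨a * (e - 1), by rw [ha]; push_cast; ring⟩
      · exact ⟨e * a, by rw [ha]; push_cast; ring⟩
  · refine lift_root h.emod p hp h2 ⟨0, ?_⟩
    rw [zero_pow two_ne_zero, zero_sub, Int.dvd_neg]
    exact hpd

lemma split_m (m : ℤ) (p : ℕ) : ∃ m' : ℤ, m = (p : ℤ) ^ (m.natAbs.factorization p) * m' := by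
  have h1 : p ^ (m.natAbs.factorization p) ∣ m.natAbs := Nat.ordProj_dvd _ p
  have h2 : ((p ^ (m.natAbs.factorization p) : ℕ) : ℤ) ∣ m := Int.natCast_dvd.2 h1
  obtain ⟨m', hm'⟩ := h2
  rw [Nat.cast_pow] at hm'
  exact ⟨m', hm'⟩

/-- **Sufficiency.** -/
theorem suff (n : ℕ) (d m c₁ c₂ : ℤ) (hd : IsFund d) (h : c₁ ^ 2 - 4 * c₂ = d * m ^ 2)
    (hb : Bound n d m) : RiemannRoch n (poly2 c₁ c₂) := by
  obtain ⟨A, B, hAB, hB⟩ : ∃ A B : ℤ, d = B ^ 2 + 4 * A ∧ (B = 0 ∨ B = 1) := by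
    rcases hd.emod with h1 | h1
    · exact ⟨d / 4, 0, by omega, Or.inl rfl⟩
    · exact ⟨d / 4, 1, by omega, Or.inr rfl⟩
  obtain ⟨u, hu⟩ : ∃ u : ℤ, c₁ = 2 * u + B * m := by
    have h1 : (c₁ - B * m) * (c₁ + B * m) = 4 * (c₂ + A * m ^ 2) := by
      rw [hAB] at h
      linear_combination h
    have h2 : (2 : ℤ) ∣ c₁ - B * m := by
      have h3 : (2 : ℤ) ∣ (c₁ - B * m) * (c₁ + B * m) := by rw [h1]; omega
      rcases Int.prime_two.dvd_or_dvd h3 with h4 | h4
      · exact h4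
      · have := dvd_sub h4 (Dvd.intro _ rfl : (2 : ℤ) ∣ 2 * (B * m))
        have e : c₁ + B * m - 2 * (B * m) = c₁ - B * m := by ring
        rwa [e] at this
    obtain ⟨u, hu⟩ := h2
    exact ⟨u, by linarith⟩
  set X : QuadraticAlgebra ℤ A B := ⟨u, m⟩ with hX
  have ht : QuadraticAlgebra.trace X = c₁ := by rw [trace_def, hX, hu]
  have hn : QuadraticAlgebra.norm X = c₂ := by
    have h1 : 4 * QuadraticAlgebra.norm X = 4 * c₂ := by
      rw [norm_def, hX]
      rw [hAB, hu] at h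
      simp only
      linear_combination h
    linarith
  rw [← ht, ← hn]
  apply RR_of_trace
  intro k hk
  apply dvd_of_LD _ (Nat.factorial_ne_zero k)
  intro p hp
  obtain ⟨h1, h2⟩ := hb p hp
  obtain ⟨m', hm'⟩ := split_m m p
  set a := m.natAbs.factorization p
  -- roots of the polynomial
  have hroot : ∀ t : ℤ, (4 * p : ℤ) ∣ t ^ 2 - d → ∃ c : ℤ, 2 * c - B = t ∧ (p : ℤ) ∣ c ^ 2 - B * c - A := by
    intro t ht
    obtain ⟨c, hc⟩ : ∃ c : ℤ, t + B = 2 * c := by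
      have h4 : (2 : ℤ) ∣ (t - B) * (t + B) := by
        have h5 : (4 : ℤ) ∣ t ^ 2 - d := (Dvd.intro _ rfl).trans ht
        have e : (t - B) * (t + B) = (t ^ 2 - d) + 4 * A := by rw [hAB]; ring
        rw [e]
        omega
      rcases Int.prime_two.dvd_or_dvd h4 with h6 | h6
      · obtain ⟨y, hy⟩ := h6
        exact ⟨y + B, by linarith⟩
      · obtain ⟨y, hy⟩ := h6
        exact ⟨y, hy⟩
    refine ⟨c, by linarith, ?_⟩
    have e : t ^ 2 - d = 4 * (c ^ 2 - B * c - A) := by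
      rw [hAB, show t = 2 * c - B by linarith]
      ring
    rw [e] at ht
    exact (mul_dvd_mul_iff_left (by norm_num : (4 : ℤ) ≠ 0)).1 ht
  by_cases hpd : (p : ℤ) ∣ d
  · obtain ⟨t, ht⟩ := hd.root p hp hpd
    obtain ⟨c, hc, hc'⟩ := hroot t ht
    have hpt : (p : ℤ) ∣ t := by
      have h5 : (p : ℤ) ∣ t ^ 2 - d := (Dvd.intro_left _ rfl).trans ht
      have h6 : (p : ℤ) ∣ t ^ 2 := by
        have := dvd_add h5 hpd
        rwa [sub_add_cancel] at this
      exact (Nat.prime_iff_prime_int.1 hp).dvd_of_dvd_pow h6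
    have e : X = (p : QuadraticAlgebra ℤ A B) ^ a * ((m' : QuadraticAlgebra ℤ A B) *
        (ω - ((c : ℤ) : QuadraticAlgebra ℤ A B))) +
        ((u + (p : ℤ) ^ a * m' * c : ℤ) : QuadraticAlgebra ℤ A B) := by
      have e1 : X = (u : QuadraticAlgebra ℤ A B) + (m : QuadraticAlgebra ℤ A B) * ω := by
        rw [hX]
        ext <;> simp
      rw [e1]
      nth_rewrite 1 [hm']
      push_cast
      ring
    rw [e]
    exact translate hp n _ (fun k hk => ram_case p hp a c m' (by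
      have : B - 2 * c = -t := by linarith
      rw [this, Int.dvd_neg]
      exact hpt) hc' k (lt_of_le_of_lt hk (h2 hpd))) _ k hk
  · by_cases hsp : ∃ t : ℤ, (4 * p : ℤ) ∣ t ^ 2 - d
    · obtain ⟨t, ht⟩ := hsp
      obtain ⟨c, hc, hc'⟩ := hroot t ht
      refine split_case p hp ⟨c, hc', ?_⟩ X k
      rw [hc]
      intro hpt
      apply hpd
      have h5 : (p : ℤ) ∣ t ^ 2 - d := (Dvd.intro_left _ rfl).trans ht
      have h6 : (p : ℤ) ∣ t ^ 2 := Dvd.dvd.pow hpt two_ne_zero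
      have := dvd_sub h6 h5
      rwa [sub_sub_cancel] at this
    · have e : X = (p : QuadraticAlgebra ℤ A B) ^ a * ((m' : QuadraticAlgebra ℤ A B) * ω) +
          ((u : ℤ) : QuadraticAlgebra ℤ A B) := by
        have e1 : X = (u : QuadraticAlgebra ℤ A B) + (m : QuadraticAlgebra ℤ A B) * ω := by
          rw [hX]
          ext <;> simp
        rw [e1]
        nth_rewrite 1 [hm']
        push_cast
        ring
      rw [e]
      exact translate hp n _ (fun k hk => bound_case p hp a _ k (lt_of_le_of_lt hk (h1 hsp))) _ k hk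

end Pool.Agent.T2H43.RQ
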