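import Mathlib

set_option autoImplicit false

/-! Valuations of the symmetric products. -/

namespace Pool.Agent.T2H43.RQ

open Finset

/-- the symmetric product -/
def F (c ε D : ℤ) (K : ℕ) : ℤ := ∏ j ∈ range K, (D - (c * j + ε) ^ 2)

lemma not_dvd_rest (p : ℕ) (hp : p.Prime) (c ε D : ℤ) (hc : ¬ (p : ℤ) ∣ c) (j₀ : ℕ) (hj₀ : j₀ < p)
    (h0 : (p : ℤ) ∣ c * j₀ + ε) (hD : (p : ℤ) ∣ D) (b : ℤ) :
    ¬ (p : ℤ) ∣ ∏ i ∈ (range p).erase j₀, (D - (c * (p * b + i) + ε) ^ 2) := by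
  have hpi := Nat.prime_iff_prime_int.1 hp
  intro hdv
  rw [Prime.dvd_finsetProd_iff hpi] at hdv
  obtain ⟨i, hi, hid⟩ := hdv
  rw [mem_erase, mem_range] at hi
  have h3 : (p : ℤ) ∣ (c * (p * b + i) + ε) ^ 2 := by
    have := dvd_sub hD hid
    rwa [sub_sub_cancel] at this
  have h4 := hpi.dvd_of_dvd_pow h3
  have h5 : (p : ℤ) ∣ c * ((i : ℤ) - j₀) := by
    have := dvd_sub (dvd_sub h4 h0) (dvd_mul_right (p : ℤ) (c * b))
    have e : c * (p * b + (i : ℤ)) + ε - (c * (j₀ : ℤ) + ε) - p * (c * b) = c * ((i : ℤ) - j₀) := by ring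
    rwa [e] at this
  rcases hpi.dvd_or_dvd h5 with h6 | h6
  · exact hc h6
  · have h7 : (i : ℤ) - j₀ = 0 := by
      apply Int.eq_zero_of_abs_lt_dvd h6
      rw [abs_lt]
      constructor <;> omega
    exact hi.1 (by omega)

lemma step_prod (p : ℕ) (hp : p.Prime) (c ε D : ℤ) (hc : ¬ (p : ℤ) ∣ c) (j₀ : ℕ) (hj₀ : j₀ < p)
    (h0 : c * j₀ + ε = p * ε) (K : ℕ) :
    ∃ R : ℤ, ¬ (p : ℤ) ∣ R ∧ F c ε ((p : ℤ) ^ 2 * D) (p * K) = (p : ℤ) ^ (2 * K) * F c ε D K * R := by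
  have hpi := Nat.prime_iff_prime_int.1 hp
  induction K with
  | zero =>
    refine ⟨1, ?_, by simp [F]⟩
    intro h
    exact hpi.not_dvd_one h
  | succ K ih =>
    obtain ⟨R, hR, hRe⟩ := ih
    refine ⟨R * ∏ i ∈ (range p).erase j₀, ((p : ℤ) ^ 2 * D - (c * (p * (K : ℤ) + i) + ε) ^ 2), ?_, ?_⟩
    · intro h
      rcases hpi.dvd_or_dvd h with h1 | h1
      · exact hR h1
      · exact not_dvd_rest p hp c ε ((p : ℤ) ^ 2 * D) hc j₀ hj₀ (by rw [h0]; exact dvd_mul_right _ _)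
          (Dvd.dvd.mul_right (dvd_pow_self _ two_ne_zero) _) K h1
    · have e1 : F c ε ((p : ℤ) ^ 2 * D) (p * (K + 1)) = F c ε ((p : ℤ) ^ 2 * D) (p * K) *
          ∏ i ∈ range p, ((p : ℤ) ^ 2 * D - (c * (p * (K : ℤ) + i) + ε) ^ 2) := by
        unfold F
        rw [mul_add, mul_one, prod_range_add]
        push_cast
        rfl
      rw [e1, hRe, ← mul_prod_erase _ _ (mem_range.2 hj₀)]
      have e2 : c * (p * (K : ℤ) + j₀) + ε = p * (c * K + ε) := by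
        linear_combination h0
      have e3 : F c ε D (K + 1) = F c ε D K * (D - (c * K + ε) ^ 2) := by
        unfold F
        rw [prod_range_succ]
      rw [e2, e3, show 2 * (K + 1) = 2 * K + 2 by ring, pow_add]
      ring

lemma fac_step (p : ℕ) (hp : 0 < p) (K : ℕ) : p ^ K * K.factorial ∣ (p * K).factorial := by
  induction K with
  | zero => simp
  | succ K ih =>
    obtain ⟨q, rfl⟩ : ∃ q, p = q + 1 := ⟨p - 1, by omega⟩
    have e : (q + 1) * (K + 1) = ((q + 1) * K + q) + 1 := by ring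
    have e' : ((q + 1) * (K + 1)).factorial = ((q + 1) * (K + 1)) * ((q + 1) * K + q).factorial := by
      rw [e, Nat.factorial_succ]
    rw [e', Nat.factorial_succ, pow_succ]
    have h1 : ((q + 1) * K).factorial ∣ ((q + 1) * K + q).factorial :=
      Nat.factorial_dvd_factorial (Nat.le_add_right _ _)
    have e2 : (q + 1) ^ K * (q + 1) * ((K + 1) * K.factorial) =
        (q + 1) * (K + 1) * ((q + 1) ^ K * K.factorial) := by ring
    rw [e2]
    exact mul_dvd_mul_left _ (ih.trans h1)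

/-- some power of `p` divides the factorial, but not the product -/
def W (p : ℕ) (q c ε D : ℤ) (K : ℕ) : Prop :=
  ∃ e : ℕ, p ^ e ∣ (2 * K).factorial ∧ ¬ (p : ℤ) ^ e ∣ q * F c ε D K

lemma W.step {p : ℕ} (hp : p.Prime) {q c ε D : ℤ} {K : ℕ} (hc : ¬ (p : ℤ) ∣ c) (j₀ : ℕ) (hj₀ : j₀ < p)
    (h0 : c * j₀ + ε = p * ε) (h : W p q c ε D K) : W p q c ε ((p : ℤ) ^ 2 * D) (p * K) := by
  have hpi := Nat.prime_iff_prime_int.1 hp
  obtain ⟨e, h1, h2⟩ := h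
  obtain ⟨R, hR, hRe⟩ := step_prod p hp c ε D hc j₀ hj₀ h0 K
  refine ⟨2 * K + e, ?_, fun h3 => h2 ?_⟩
  · rw [pow_add, show 2 * (p * K) = p * (2 * K) by ring]
    exact (mul_dvd_mul_left _ h1).trans (fac_step p hp.pos (2 * K))
  · rw [hRe, pow_add] at h3
    have e1 : q * ((p : ℤ) ^ (2 * K) * F c ε D K * R) = (p : ℤ) ^ (2 * K) * (q * F c ε D K * R) := by ring
    rw [e1] at h3
    have h4 := (mul_dvd_mul_iff_left (pow_ne_zero _ hpi.ne_zero)).1 h3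
    have hcop : IsCoprime ((p : ℤ) ^ e) R :=
      IsCoprime.pow_left ((Irreducible.coprime_iff_not_dvd hpi.irreducible).mpr hR)
    exact hcop.dvd_of_dvd_mul_right h4

lemma W.iter {p : ℕ} (hp : p.Prime) {q c ε D : ℤ} {K : ℕ} (hc : ¬ (p : ℤ) ∣ c) (j₀ : ℕ) (hj₀ : j₀ < p)
    (h0 : c * j₀ + ε = p * ε) (h : W p q c ε D K) (a : ℕ) :
    W p q c ε ((p : ℤ) ^ (2 * a) * D) (p ^ a * K) := by
  induction a with
  | zero => simpa using h
  | succ a ih =>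
    have := ih.step hp hc j₀ hj₀ h0
    convert this using 1
    · ring
    · ring

/-- inert odd primes -/
lemma base_inert (p : ℕ) (hp : p.Prime) (hp2 : p ≠ 2) (u : ℤ) (hu : ¬ ∃ t : ℤ, (p : ℤ) ∣ u - t ^ 2)
    (ε : ℤ) : W p 1 2 ε u ((p + 1) / 2) := by
  have hpi := Nat.prime_iff_prime_int.1 hp
  obtain ⟨q, hq⟩ := hp.odd_of_ne_two hp2
  refine ⟨1, ?_, fun h => ?_⟩
  · rw [pow_one, show 2 * ((p + 1) / 2) = p + 1 by omega]
    exact Nat.dvd_factorial hp.pos (Nat.le_succ p)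
  · rw [pow_one, one_mul, F, Prime.dvd_finsetProd_iff hpi] at h
    obtain ⟨j, _, hj⟩ := h
    exact hu ⟨_, hj⟩

/-- ramified odd primes -/
lemma base_ram (p : ℕ) (hp : p.Prime) (hp2 : p ≠ 2) (u : ℤ) (hu : ¬ (p : ℤ) ∣ u)
    (ε : ℤ) (hε : ε = 0 ∨ ε = 1) : W p 1 2 ε (p * u) p := by
  have hpi := Nat.prime_iff_prime_int.1 hp
  obtain ⟨q, hq⟩ := hp.odd_of_ne_two hp2
  obtain ⟨j₀, hj₀, h0⟩ : ∃ j₀ : ℕ, j₀ < p ∧ 2 * (j₀ : ℤ) + ε = p * ε := by
    rcases hε with rfl | rfl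
    · exact ⟨0, hp.pos, by simp⟩
    · exact ⟨q, by omega, by rw [hq]; push_cast; ring⟩
  have hc : ¬ (p : ℤ) ∣ 2 := by
    intro h
    have h7 : p ∣ 2 := by exact_mod_cast h
    have := Nat.le_of_dvd (by norm_num) h7
    have := hp.two_le
    omega
  refine ⟨2, ?_, fun h => ?_⟩
  · have h4 : p.factorial * p.factorial ∣ (p + p).factorial :=
      Nat.factorial_mul_factorial_dvd_factorial_add p p
    rw [← two_mul] at h4
    refine dvd_trans ?_ h4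
    rw [pow_two]
    exact Nat.mul_dvd_mul (Nat.dvd_factorial hp.pos le_rfl) (Nat.dvd_factorial hp.pos le_rfl)
  · rw [one_mul, F, ← mul_prod_erase _ _ (mem_range.2 hj₀), h0] at h
    have h1 := not_dvd_rest p hp 2 ε (p * u) hc j₀ hj₀ (by rw [h0]; exact dvd_mul_right _ _)
      (dvd_mul_right _ _) 0
    simp only [mul_zero, zero_add] at h1
    have hcop : IsCoprime ((p : ℤ) ^ 2) (∏ i ∈ (range p).erase j₀, (p * u - (2 * (i : ℤ) + ε) ^ 2)) :=
      IsCoprime.pow_left ((Irreducible.coprime_iff_not_dvd hpi.irreducible).mpr h1)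
    have h2 := hcop.dvd_of_dvd_mul_right h
    have e1 : (p : ℤ) * u - (p * ε) ^ 2 = p * (u - p * ε ^ 2) := by ring
    rw [e1, pow_two] at h2
    have h3 := (mul_dvd_mul_iff_left hpi.ne_zero).1 h2
    apply hu
    have := dvd_add h3 (dvd_mul_right (p : ℤ) (ε ^ 2))
    rwa [sub_add_cancel] at this

lemma base_inert2 (u : ℤ) (hu : u % 8 = 5) : W 2 2 1 0 u 3 := by
  refine ⟨4, by decide, fun h => ?_⟩
  have e : F 1 0 u 3 = u * (u - 1) * (u - 4) := by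
    simp [F, prod_range_succ]
  rw [e] at h
  obtain ⟨w, hw⟩ : ∃ w, u = 8 * w + 5 := ⟨u / 8, by omega⟩
  rw [hw] at h
  have e2 : 2 * ((8 * w + 5) * (8 * w + 5 - 1) * (8 * w + 5 - 4)) =
      16 * (64 * w ^ 3 + 80 * w ^ 2 + 29 * w + 2) + 8 := by ring
  rw [e2] at h
  norm_num at h

lemma base_ram2 (u : ℤ) (hu : u % 4 = 2 ∨ u % 4 = 3) : W 2 2 1 0 u 2 := by
  refine ⟨3, by decide, fun h => ?_⟩
  have e : F 1 0 u 2 = u * (u - 1) := by
    simp [F, prod_range_succ]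
  rw [e] at h
  rcases hu with hu | hu
  · obtain ⟨w, hw⟩ : ∃ w, u = 4 * w + 2 := ⟨u / 4, by omega⟩
    rw [hw] at h
    have e2 : 2 * ((4 * w + 2) * (4 * w + 2 - 1)) = 8 * (4 * w ^ 2 + 3 * w) + 4 := by ring
    rw [e2] at h
    norm_num at h
  · obtain ⟨w, hw⟩ : ∃ w, u = 4 * w + 3 := ⟨u / 4, by omega⟩
    rw [hw] at h
    have e2 : 2 * ((4 * w + 3) * (4 * w + 3 - 1)) = 8 * (4 * w ^ 2 + 5 * w + 1) + 4 := by ring
    rw [e2] at h
    norm_num at h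

end Pool.Agent.T2H43.RQ
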