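import Pool.Agent.T2H43.RQ.Crit
import Pool.Agent.T2H43.RQ.Step
import Pool.Agent.R920.CH.Two

set_option autoImplicit false

/-! Necessity of the numerical conditions. -/

namespace Pool.Agent.T2H43.RQ

open Finset Polynomial Pool.Agent.R920.CH

lemma no_odd {n : ℕ} {c₁ c₂ D : ℤ} (hRR : RiemannRoch n (poly2 c₁ c₂)) (hD : c₁ ^ 2 - 4 * c₂ = D)
    (p : ℕ) (K : ℕ) (hK : 1 ≤ K) (hW : W p 1 2 (c₁ % 2) D K) : n < 2 * K := by
  by_contra hn
  obtain ⟨e, h1, h2⟩ := hW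
  have hd := divis hRR hK (not_lt.1 hn)
  apply h2
  rw [one_mul]
  have h3 : ((p : ℤ) ^ e) ∣ ((2 * K).factorial : ℤ) := by exact_mod_cast h1
  rw [hD] at hd
  exact (h3.trans (dvd_mul_left _ _)).trans hd

lemma no_two {n : ℕ} {c₁ c₂ δ : ℤ} (hRR : RiemannRoch n (poly2 c₁ c₂))
    (hD : c₁ ^ 2 - 4 * c₂ = 4 * δ) (hc : c₁ % 2 = 0) (K : ℕ) (hK : 1 ≤ K)
    (hW : W 2 2 1 0 δ K) : n < 2 * K := by
  by_contra hn
  obtain ⟨e, h1, h2⟩ := hW
  have hd := divis hRR hK (not_lt.1 hn)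
  apply h2
  have h5 : (4 : ℤ) ^ K = 2 ^ (2 * K - 1) * 2 := by
    rw [← pow_succ, show 2 * K - 1 + 1 = 2 * K by omega, pow_mul]
    norm_num
  have e1 : ∏ j ∈ range K, (c₁ ^ 2 - 4 * c₂ - (2 * (j : ℤ) + c₁ % 2) ^ 2) =
      2 ^ (2 * K - 1) * (2 * F 1 0 δ K) := by
    rw [← mul_assoc, ← h5, F, ← card_range K, ← prod_const, card_range, ← prod_mul_distrib]
    refine prod_congr rfl fun j _ => ?_
    rw [hD, hc]
    ring
  rw [e1] at hd
  have h6 := (mul_dvd_mul_iff_left (pow_ne_zero _ two_ne_zero)).1 hd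
  have h3 : (((2 : ℕ) : ℤ) ^ e) ∣ ((2 * K).factorial : ℤ) := by exact_mod_cast h1
  exact h3.trans h6

lemma odd_three {n : ℕ} {c₁ c₂ : ℤ} (hRR : RiemannRoch n (poly2 c₁ c₂)) (hn : 3 ≤ n) :
    (2 : ℤ) ∣ c₁ * c₂ := by
  obtain ⟨x, y, hxy, hs, hp⟩ := roots2 c₁ c₂
  obtain ⟨z, hz⟩ := hRR (bin 3) (bin_int 3) ((natDegree_bin 3).trans hn)
  rw [hxy] at hz
  have hz' : aeval x (bin 3) + aeval y (bin 3) = z := by simpa using hz
  rw [aeval_bin, aeval_bin, prod_range_succ, prod_range_succ, prod_range_succ, prod_range_succ,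
    prod_range_succ, prod_range_succ, prod_range_zero, prod_range_zero] at hz'
  have h6 : ((3 : ℕ).factorial : ℂ) = 6 := by norm_num [Nat.factorial]
  rw [h6] at hz'
  push_cast at hz'
  have h1 : (6 : ℂ) * z = (c₁ : ℂ) ^ 3 - 3 * c₁ * c₂ - 3 * (c₁ ^ 2 - 2 * c₂) + 2 * c₁ := by
    rw [← hs, ← hp, ← hz']
    ring
  have h2 : 6 * z = c₁ ^ 3 - 3 * c₁ * c₂ - 3 * (c₁ ^ 2 - 2 * c₂) + 2 * c₁ := by exact_mod_cast h1
  rcases Int.even_or_odd c₁ with ⟨a, ha⟩ | ⟨a, ha⟩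
  · exact ⟨a * c₂, by rw [ha]; ring⟩
  · have h4 : c₁ - 3 = 2 * (a - 1) := by rw [ha]; ring
    have h3 : c₁ * c₂ = -2 * (c₁ * c₂) + (c₁ ^ 2 * (c₁ - 3) + 6 * c₂ + 2 * c₁ - 6 * z) := by
      linear_combination h2
    have h5 : c₁ * c₂ = -2 * (c₁ * c₂) + (c₁ ^ 2 * (2 * (a - 1)) + 6 * c₂ + 2 * c₁ - 6 * z) := by
      rw [← h4]
      exact h3
    exact ⟨-(c₁ * c₂) + (c₁ ^ 2 * (a - 1) + 3 * c₂ + c₁ - 3 * z), by linear_combination h5⟩

lemma sq_mod8 (m : ℤ) (hm : ¬ (2 : ℤ) ∣ m) : ∃ w : ℤ, m ^ 2 = 8 * w + 1 := by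
  obtain ⟨a, ha⟩ : ∃ a, m = 2 * a + 1 := ⟨m / 2, by omega⟩
  obtain ⟨b, hb⟩ : ∃ b, a * (a + 1) = 2 * b := by
    rcases Int.even_or_odd a with ⟨q, hq⟩ | ⟨q, hq⟩
    · exact ⟨q * (a + 1), by rw [hq]; ring⟩
    · exact ⟨a * (q + 1), by rw [hq]; ring⟩
  exact ⟨b, by rw [ha]; linear_combination 4 * hb⟩

/-- **Necessity.** -/
theorem nec (n : ℕ) (d m c₁ c₂ : ℤ) (hd : IsFund d) (hm : m ≠ 0)
    (h : c₁ ^ 2 - 4 * c₂ = d * m ^ 2) (hRR : RiemannRoch n (poly2 c₁ c₂)) : Bound n d m := by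
  intro p hp
  have hpi := Nat.prime_iff_prime_int.1 hp
  obtain ⟨m', hm'⟩ := split_m m p
  have hpm : ¬ (p : ℤ) ∣ m' := by
    rintro ⟨w, hw⟩
    apply Nat.pow_succ_factorization_not_dvd (Int.natAbs_ne_zero.2 hm) hp
    apply Int.natCast_dvd.1
    refine ⟨w, ?_⟩
    nth_rewrite 1 [hm']
    rw [hw]
    push_cast
    ring
  set a := m.natAbs.factorization p with ha
  have hε : c₁ % 2 = 0 ∨ c₁ % 2 = 1 := Int.emod_two_eq_zero_or_one c₁
  have hpa : 0 < p ^ a := pow_pos hp.pos a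
  -- the data for odd primes
  have hodd : p ≠ 2 → ¬ (p : ℤ) ∣ 2 ∧ ∃ j₀ : ℕ, j₀ < p ∧ 2 * (j₀ : ℤ) + c₁ % 2 = p * (c₁ % 2) := by
    intro h2
    obtain ⟨q, hq⟩ := hp.odd_of_ne_two h2
    refine ⟨fun h => ?_, ?_⟩
    · have h7 : p ∣ 2 := by exact_mod_cast h
      have := Nat.le_of_dvd (by norm_num) h7
      have := hp.two_le
      omega
    · rcases hε with h0 | h0
      · exact ⟨0, hp.pos, by rw [h0]; simp⟩
      · exact ⟨q, by omega, by rw [h0, hq]; push_cast; ring⟩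
  have h12 : ¬ ((2 : ℕ) : ℤ) ∣ 1 := by norm_num
  constructor
  · intro hin
    by_cases h2 : p = 2
    · subst h2
      have hd8 : d % 8 = 5 := by
        rcases hd.emod with h1 | h1
        · exact absurd (hd.root 2 hp (by push_cast; omega)) hin
        · rcases (by omega : d % 8 = 1 ∨ d % 8 = 5) with h3 | h3
          · exact absurd ⟨1, by push_cast; omega⟩ hin
          · exact h3
      obtain ⟨w, hw⟩ := sq_mod8 m' (by exact_mod_cast hpm)
      have hu8 : (d * m' ^ 2) % 8 = 5 := by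
        rw [hw]
        have : d * (8 * w + 1) = 8 * (d * w) + d := by ring
        rw [this]
        omega
      rcases Nat.eq_zero_or_pos a with h0 | h0
      · rw [h0, pow_zero, one_mul] at hm'
        rw [h0, pow_zero, one_mul]
        by_contra hn
        have h3 := odd_three hRR (not_lt.1 hn)
        rw [hm'] at h
        have hc1 : ¬ (2 : ℤ) ∣ c₁ := by
          rintro ⟨q, hq⟩
          have : c₁ ^ 2 = 4 * q ^ 2 := by rw [hq]; ring
          omega
        obtain ⟨q, hq⟩ := sq_mod8 c₁ hc1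
        rcases Int.prime_two.dvd_or_dvd h3 with h4 | h4
        · exact hc1 h4
        · omega
      · obtain ⟨b, hb⟩ : ∃ b, a = b + 1 := ⟨a - 1, by omega⟩
        have hD : c₁ ^ 2 - 4 * c₂ = 4 * ((2 : ℤ) ^ (2 * b) * (d * m' ^ 2)) := by
          rw [h, hm', hb]
          push_cast
          ring
        have hc : c₁ % 2 = 0 := by
          rcases hε with h1 | h1
          · exact h1
          · exfalso
            obtain ⟨q, hq⟩ := sq_mod8 c₁ (by omega)
            omega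
        have hW := (base_inert2 _ hu8).iter hp h12 0 hp.pos (by simp) b
        have := no_two hRR hD hc (2 ^ b * 3)
          (Nat.mul_pos (pow_pos (by norm_num) _) (by norm_num)) hW
        rw [hb, pow_succ]
        omega
    · obtain ⟨hc, j₀, hj₀, h0⟩ := hodd h2
      have hu : ¬ ∃ t : ℤ, (p : ℤ) ∣ d * m' ^ 2 - t ^ 2 := by
        rintro ⟨t, ht⟩
        apply hin
        apply lift_root hd.emod p hp h2
        obtain ⟨u, v, huv⟩ := (Irreducible.coprime_iff_not_dvd hpi.irreducible).mpr hpm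
        refine ⟨v * t, ?_⟩
        have e1 : v * m' = 1 - u * p := by linarith
        have e2 : (v * m') ^ 2 = (1 - u * p) ^ 2 := by rw [e1]
        have e : (v * t) ^ 2 - d = -(v ^ 2 * (d * m' ^ 2 - t ^ 2)) + (p : ℤ) * (-(d * u * (2 - u * p))) := by
          linear_combination d * e2
        rw [e]
        exact dvd_add ((Int.dvd_neg).2 (Dvd.dvd.mul_left ht _)) (dvd_mul_right _ _)
      have hW := (base_inert p hp h2 _ hu (c₁ % 2)).iter hp hc j₀ hj₀ h0 a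
      have hD : c₁ ^ 2 - 4 * c₂ = (p : ℤ) ^ (2 * a) * (d * m' ^ 2) := by
        rw [h]
        nth_rewrite 1 [hm']
        ring
      obtain ⟨q, hq⟩ := hp.odd_of_ne_two h2
      have h3 : (p + 1) / 2 = q + 1 := by omega
      have := no_odd hRR hD p (p ^ a * ((p + 1) / 2)) (by
        rw [h3]
        exact Nat.mul_pos hpa (Nat.succ_pos q)) hW
      have e : 2 * (p ^ a * ((p + 1) / 2)) = p ^ a * (p + 1) := by
        rw [h3, hq]
        ring
      rwa [e] at this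
  · intro hpd
    by_cases h2 : p = 2
    · subst h2
      obtain ⟨e, he, _, he4⟩ : ∃ e : ℤ, d = 4 * e ∧ Squarefree e ∧ (e % 4 = 2 ∨ e % 4 = 3) := by
        rcases hd with ⟨h1, _⟩ | h1
        · exfalso
          have : (2 : ℤ) ∣ d := by exact_mod_cast hpd
          omega
        · exact h1
      obtain ⟨w, hw⟩ := sq_mod8 m' (by exact_mod_cast hpm)
      have hu4 : (e * m' ^ 2) % 4 = 2 ∨ (e * m' ^ 2) % 4 = 3 := by
        rw [hw]
        have : e * (8 * w + 1) = 8 * (e * w) + e := by ring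
        rw [this]
        omega
      have hD : c₁ ^ 2 - 4 * c₂ = 4 * (((2 : ℕ) : ℤ) ^ (2 * a) * (e * m' ^ 2)) := by
        rw [h, he]
        nth_rewrite 1 [hm']
        ring
      have hc : c₁ % 2 = 0 := by
        rcases hε with h1 | h1
        · exact h1
        · exfalso
          obtain ⟨q, hq⟩ := sq_mod8 c₁ (by omega)
          omega
      have hW := (base_ram2 _ hu4).iter hp h12 0 hp.pos (by simp) a
      have := no_two hRR hD hc (2 ^ a * 2)
        (Nat.mul_pos (pow_pos (by norm_num) _) (by norm_num)) hW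
      rw [pow_succ]
      exact this
    · obtain ⟨hc, j₀, hj₀, h0⟩ := hodd h2
      obtain ⟨d₁, hd₁⟩ := hpd
      have hpd₁ : ¬ (p : ℤ) ∣ d₁ := by
        rintro ⟨w, hw⟩
        have hsq : (p : ℤ) * p ∣ d := ⟨w, by rw [hd₁, hw]; ring⟩
        rcases hd with ⟨_, h1⟩ | ⟨e, he, h1, _⟩
        · exact hpi.not_isUnit (h1 _ hsq)
        · apply hpi.not_isUnit (h1 _ _)
          rw [he] at hsq
          have hcop := (coprime_four p hp h2)
          exact (hcop.symm.mul_left hcop.symm).dvd_of_dvd_mul_left hsq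
      have hu : ¬ (p : ℤ) ∣ d₁ * m' ^ 2 := by
        intro h1
        rcases hpi.dvd_or_dvd h1 with h3 | h3
        · exact hpd₁ h3
        · exact hpm (hpi.dvd_of_dvd_pow h3)
      have hW := (base_ram p hp h2 _ hu (c₁ % 2) hε).iter hp hc j₀ hj₀ h0 a
      have hD : c₁ ^ 2 - 4 * c₂ = (p : ℤ) ^ (2 * a) * (p * (d₁ * m' ^ 2)) := by
        rw [h, hd₁]
        nth_rewrite 1 [hm']
        ring
      have := no_odd hRR hD p (p ^ a * p) (Nat.mul_pos hpa hp.pos) hW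
      rw [pow_succ]
      exact this

/-- **The classification.** -/
theorem classify (n : ℕ) (d m c₁ c₂ : ℤ) (hd : IsFund d) (hm : m ≠ 0)
    (h : c₁ ^ 2 - 4 * c₂ = d * m ^ 2) : RiemannRoch n (poly2 c₁ c₂) ↔ Bound n d m :=
  ⟨nec n d m c₁ c₂ hd hm h, suff n d m c₁ c₂ hd h⟩

end Pool.Agent.T2H43.RQ
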