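import Pool.Agent.T2H43.RQ.Basic

set_option autoImplicit false

/-! Traces of falling factorials in quadratic rings. -/

namespace Pool.Agent.T2H43.RQ

open Finset QuadraticAlgebra

section gen
variable {S : Type*} [CommRing S]

lemma split_fac (p : ℕ) (hp : p.Prime) (k : ℕ) (hk : k ≠ 0) :
    ∃ k' : ℕ, ¬ p ∣ k' ∧ k = p ^ (k.factorization p) * k' :=
  ⟨k / p ^ (k.factorization p), Nat.not_dvd_ordCompl hp hk, (Nat.ordProj_mul_ordCompl_eq_self k p).symm⟩

lemma factor (p : ℕ) (hp : p.Prime) (a : ℕ) (z : S) (j : ℕ) (hj : j ≠ 0)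
    (hv : j.factorization p ≤ a) : LD p j ((p : S) ^ a * z - j) := by
  obtain ⟨j', hj', e⟩ := split_fac p hp j hj
  set v := j.factorization p
  refine ⟨j', hj', ?_⟩
  obtain ⟨b, rfl⟩ := Nat.exists_eq_add_of_le hv
  refine ⟨(p : S) ^ b * z - j', ?_⟩
  rw [e]
  push_cast
  ring

lemma first (p : ℕ) (hp : p.Prime) (a : ℕ) (z : S) (j : ℕ) (hj : j ≠ 0)
    (hv : j.factorization p ≤ a) : LD p j ((p : S) ^ a * z) := by
  obtain ⟨j', hj', e⟩ := split_fac p hp j hj
  set v := j.factorization p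
  refine ⟨j', hj', ?_⟩
  obtain ⟨b, rfl⟩ := Nat.exists_eq_add_of_le hv
  refine ⟨(p : S) ^ b * z, ?_⟩
  rw [e]
  push_cast
  ring

lemma fac_le (p : ℕ) (hp : p.Prime) (a j : ℕ) (hj : j ≠ 0) (h : j < p ^ (a + 1)) :
    j.factorization p ≤ a := by
  have h1 : p ^ (j.factorization p) ≤ j := Nat.ordProj_le p hj
  have h2 := (Nat.pow_lt_pow_iff_right hp.one_lt).1 (h1.trans_lt h)
  omega

lemma P_split (X : S) (k : ℕ) (hk : 0 < k) : P X k = X * ∏ j ∈ Ico 1 k, (X - j) := by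
  rw [P, range_eq_Ico, prod_eq_prod_Ico_succ_bot hk]
  simp

lemma tail (p : ℕ) (hp : p.Prime) (a : ℕ) (z : S) (J : Finset ℕ)
    (hJ : ∀ j ∈ J, j ≠ 0 ∧ j.factorization p ≤ a) :
    LD p (∏ j ∈ J, j) (∏ j ∈ J, ((p : S) ^ a * z - j)) :=
  LD.prod hp J (fun j => j) _ fun j hj => factor p hp a z j (hJ j hj).1 (hJ j hj).2

lemma fact_eq (k : ℕ) (hk : 0 < k) : k.factorial = k * ∏ j ∈ Ico 1 k, j := by
  obtain ⟨m, rfl⟩ : ∃ m, k = m + 1 := ⟨k - 1, by omega⟩
  rw [prod_Ico_id_eq_factorial, Nat.factorial_succ]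

lemma good (p : ℕ) (hp : p.Prime) (a : ℕ) (z : S) (k : ℕ) (hk : k < p ^ (a + 1)) :
    LD p k.factorial (P ((p : S) ^ a * z) k) := by
  rcases Nat.eq_zero_or_pos k with h0 | h0
  · rw [h0]
    exact LD.of_dvd hp (by simp)
  · rw [P_split _ _ h0, fact_eq k h0]
    exact (first p hp a z k h0.ne' (fac_le p hp a k h0.ne' hk)).mul hp (tail p hp a z _ fun j hj => by
      rw [mem_Ico] at hj
      exact ⟨by omega, fac_le p hp a j (by omega) (by omega)⟩)

/-- the factor at `j = Q` -/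
lemma beyond (p : ℕ) (hp : p.Prime) (a : ℕ) (z : S) (k : ℕ) (hk : p ^ (a + 1) < k)
    (hk2 : k < 2 * p ^ (a + 1)) (β : S) (b : ℕ)
    (hβ : (p : S) ^ a * z * ((p : S) ^ a * z - (p ^ (a + 1) : ℕ)) = (p : S) ^ b * β)
    (hb : a + 1 + k.factorization p ≤ b) : LD p k.factorial (P ((p : S) ^ a * z) k) := by
  classical
  have hQ0 : 0 < p ^ (a + 1) := pow_pos hp.pos _
  have hk0 : 0 < k := by omega
  have hQmem : p ^ (a + 1) ∈ Ico 1 k := mem_Ico.2 ⟨hQ0, hk⟩
  rw [P_split _ _ hk0, fact_eq k hk0, ← mul_prod_erase _ _ hQmem, ← mul_prod_erase _ _ hQmem,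
    ← mul_assoc, ← mul_assoc]
  refine LD.mul hp ?_ (tail p hp a z _ fun j hj => ?_)
  · rw [hβ]
    obtain ⟨k', hk', e⟩ := split_fac p hp k hk0.ne'
    set v := k.factorization p
    refine ⟨k', hk', ?_⟩
    obtain ⟨c, hc⟩ := Nat.exists_eq_add_of_le hb
    refine ⟨(p : S) ^ c * β, ?_⟩
    rw [hc]
    nth_rewrite 1 [e]
    push_cast
    ring
  · rw [mem_erase, mem_Ico] at hj
    refine ⟨by omega, ?_⟩
    by_contra hcon
    have h1 : p ^ (a + 1) ∣ j := (pow_dvd_pow p (by omega)).trans (Nat.ordProj_dvd j p)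
    obtain ⟨c, hc⟩ := h1
    have hc0 : c ≠ 0 := by
      rintro rfl
      omega
    have hc1 : c ≠ 1 := by
      rintro rfl
      exact hj.1 (by rw [hc, mul_one])
    have : 2 ≤ c := by omega
    have : p ^ (a + 1) * 2 ≤ p ^ (a + 1) * c := Nat.mul_le_mul_left _ this
    omega

end gen

variable {A B : ℤ}

lemma int_dvd (g : ℕ) (z : ℤ) (h : ((g : ℕ) : QuadraticAlgebra ℤ A B) ∣ ((z : ℤ) : QuadraticAlgebra ℤ A B)) :
    (g : ℤ) ∣ z := by
  obtain ⟨w, hw⟩ := h
  refine ⟨w.re, ?_⟩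
  have := congrArg QuadraticAlgebra.re hw
  simpa using this

lemma trace_cast (α : QuadraticAlgebra ℤ A B) :
    ((trace α : ℤ) : QuadraticAlgebra ℤ A B) = α + star α := by
  rw [← algebraMap_trace_eq_add_star, eq_intCast]

lemma trace_int_mul (z : ℤ) (α : QuadraticAlgebra ℤ A B) : trace ((z : QuadraticAlgebra ℤ A B) * α) = z * trace α := by
  rw [← zsmul_eq_mul, map_zsmul, smul_eq_mul]

lemma trace_nat_mul (z : ℕ) (α : QuadraticAlgebra ℤ A B) : trace ((z : QuadraticAlgebra ℤ A B) * α) = z * trace α := by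
  have := trace_int_mul (z : ℤ) α
  push_cast at this
  exact this

lemma LD.trace {p g : ℕ} {α : QuadraticAlgebra ℤ A B} (h : LD p g α) : LD p g (trace α : ℤ) := by
  obtain ⟨N, hN, β, hβ⟩ := h
  refine ⟨N, hN, QuadraticAlgebra.trace β, ?_⟩
  rw [← trace_nat_mul, hβ, trace_nat_mul]

lemma LD.of_cast {p g : ℕ} {z : ℤ} (h : LD p g ((z : ℤ) : QuadraticAlgebra ℤ A B)) : LD p g z := by
  obtain ⟨N, hN, h'⟩ := h
  refine ⟨N, hN, int_dvd (A := A) (B := B) g _ ?_⟩
  push_cast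
  exact h'

/-- translation -/
lemma translate {p : ℕ} (hp : p.Prime) (n : ℕ) (X : QuadraticAlgebra ℤ A B)
    (h : ∀ k ≤ n, LD p k.factorial (QuadraticAlgebra.trace (P X k))) (s : ℤ) :
    ∀ k ≤ n, LD p k.factorial
      (QuadraticAlgebra.trace (P (X + ((s : ℤ) : QuadraticAlgebra ℤ A B)) k)) := by
  intro k hk
  rw [P_add, map_sum]
  refine LD.sum hp _ _ fun ij hij => ?_
  rw [HasAntidiagonal.mem_antidiagonal] at hij
  have e1 : P ((s : ℤ) : QuadraticAlgebra ℤ A B) ij.2 = ((P s ij.2 : ℤ) : QuadraticAlgebra ℤ A B) := by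
    have := P_map (Int.castRingHom (QuadraticAlgebra ℤ A B)) s ij.2
    exact this.symm
  rw [e1, trace_nat_mul, mul_comm (P X ij.1), trace_int_mul]
  have h1 : LD p (k.choose ij.1) ((k.choose ij.1 : ℕ) : ℤ) := LD.of_dvd hp dvd_rfl
  have h2 : LD p ij.2.factorial (P s ij.2) := LD.of_dvd hp (P_int s ij.2)
  have h3 := h ij.1 (by omega)
  have h4 := h1.mul hp (h2.mul hp h3)
  convert h4 using 1
  rw [← hij, mul_comm (ij.2.factorial), ← mul_assoc, Nat.choose_symm_add]
  exact (Nat.add_choose_mul_factorial_mul_factorial ij.1 ij.2).symm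

/-- the conjugate of the falling factorial of degree `Q = p ^ (a + 1)` -/
lemma conj_P (p : ℕ) (hp : p.Prime) (a : ℕ) (z : QuadraticAlgebra ℤ A B) :
    ∃ E : QuadraticAlgebra ℤ A B, LD p (p ^ (a + 1)).factorial E ∧
      star (P ((p : QuadraticAlgebra ℤ A B) ^ a * z) (p ^ (a + 1))) =
        (-1) ^ (p ^ (a + 1)) * (P ((p : QuadraticAlgebra ℤ A B) ^ a * z) (p ^ (a + 1)) + E) := by
  classical
  set X : QuadraticAlgebra ℤ A B := (p : QuadraticAlgebra ℤ A B) ^ a * z with hX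
  set Q := p ^ (a + 1) with hQ
  set c : ℤ := QuadraticAlgebra.trace X with hc
  have h1 : star (P X Q) = P (star X) Q := by
    have := P_map (starRingEnd (QuadraticAlgebra ℤ A B)) X Q
    exact this
  have h2 : star X = -(X + ((-c : ℤ) : QuadraticAlgebra ℤ A B)) := by
    have := trace_cast X
    rw [← hc] at this
    push_cast
    rw [this]
    ring
  rw [h1, h2, P_neg, add_assoc, ← Int.cast_add]
  set s : ℤ := -c + ((Q : ℤ) - 1) with hs
  have e0 : P (X + (s : QuadraticAlgebra ℤ A B)) Q = P X Q +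
      ∑ ij ∈ (antidiagonal Q).erase (Q, 0), (Nat.choose Q ij.1 : QuadraticAlgebra ℤ A B) *
        (P X ij.1 * P (s : QuadraticAlgebra ℤ A B) ij.2) := by
    rw [P_add, ← add_sum_erase (antidiagonal Q) _ (show (Q, 0) ∈ antidiagonal Q by
      rw [HasAntidiagonal.mem_antidiagonal]; simp)]
    congr 1
    simp [P]
  refine ⟨_, ?_, by rw [e0]⟩
  refine LD.sum hp _ _ fun ij hij => ?_
  rw [mem_erase, HasAntidiagonal.mem_antidiagonal] at hij
  have hlt : ij.1 < Q := by
    rcases Nat.lt_or_ge ij.1 Q with h | h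
    · exact h
    · exfalso
      apply hij.1
      ext
      · simp; omega
      · simp; omega
  have e1 : P ((s : ℤ) : QuadraticAlgebra ℤ A B) ij.2 = ((P s ij.2 : ℤ) : QuadraticAlgebra ℤ A B) := by
    have := P_map (Int.castRingHom (QuadraticAlgebra ℤ A B)) s ij.2
    exact this.symm
  have h3 : LD p (Q.choose ij.1) ((Q.choose ij.1 : ℕ) : QuadraticAlgebra ℤ A B) := LD.of_dvd hp dvd_rfl
  have h4 : LD p ij.2.factorial (P ((s : ℤ) : QuadraticAlgebra ℤ A B) ij.2) := by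
    rw [e1]
    apply LD.of_dvd hp
    obtain ⟨w, hw⟩ := P_int s ij.2
    exact ⟨w, by rw [hw]; push_cast; rfl⟩
  have h5 : LD p ij.1.factorial (P X ij.1) := good p hp a z ij.1 hlt
  have h6 := h3.mul hp (h5.mul hp h4)
  convert h6 using 1
  rw [← hij.2, ← mul_assoc, Nat.choose_symm_add]
  exact (Nat.add_choose_mul_factorial_mul_factorial ij.1 ij.2).symm

/-- **Conductor divisible by `p ^ a`.** -/
theorem bound_case (p : ℕ) (hp : p.Prime) (a : ℕ) (z : QuadraticAlgebra ℤ A B) (k : ℕ)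
    (hk : k < p ^ a * (p + 1)) :
    LD p k.factorial (QuadraticAlgebra.trace (P ((p : QuadraticAlgebra ℤ A B) ^ a * z) k)) := by
  have hpa : 0 < p ^ a := pow_pos hp.pos a
  have hQe : p ^ (a + 1) = p ^ a * p := pow_succ p a
  rcases Nat.lt_trichotomy k (p ^ (a + 1)) with h | h | h
  · exact (good p hp a z k h).trace
  · -- the trace of degree `Q`
    rw [h]
    obtain ⟨E, hE, hstar⟩ := conj_P p hp a z
    set X : QuadraticAlgebra ℤ A B := (p : QuadraticAlgebra ℤ A B) ^ a * z with hX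
    set Q := p ^ (a + 1) with hQ
    apply LD.of_cast (A := A) (B := B)
    rw [trace_cast, hstar]
    rcases hp.eq_two_or_odd' with h2 | hodd
    · have hev : Even Q := by
        rw [hQ, h2, pow_succ]
        exact even_two.mul_left _
      rw [hev.neg_one_pow, one_mul, ← add_assoc]
      refine LD.add hp ?_ hE
      have hQ0 : 0 < Q := pow_pos hp.pos _
      have e : P X Q + P X Q = (((2 : ℕ) : QuadraticAlgebra ℤ A B) * X) * ∏ j ∈ Ico 1 Q, (X - j) := by
        rw [P_split _ _ hQ0]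
        push_cast
        ring
      rw [e, fact_eq Q hQ0]
      refine LD.mul hp ?_ (tail p hp a z _ fun j hj => ?_)
      · apply LD.of_dvd hp
        refine ⟨z, ?_⟩
        rw [hX, hQ, h2]
        push_cast
        ring
      · rw [mem_Ico] at hj
        exact ⟨by omega, fac_le p hp a j (by omega) hj.2⟩
    · have hod : Odd Q := hodd.pow
      rw [hod.neg_one_pow]
      have e : P X Q + -1 * (P X Q + E) = -E := by ring
      rw [e]
      exact hE.neg
  · -- degrees between `Q` and `Q + p ^ a`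
    have hkv : k.factorization p < a := by
      by_contra hcon
      have h1 : p ^ a ∣ k := (pow_dvd_pow p (by omega)).trans (Nat.ordProj_dvd k p)
      obtain ⟨c, hc⟩ := h1
      rw [hc, hQe] at h
      rw [hc] at hk
      have h2 := Nat.lt_of_mul_lt_mul_left h
      have h3 := Nat.lt_of_mul_lt_mul_left hk
      omega
    have hk2 : k < 2 * p ^ (a + 1) := by
      have : p ^ a * (p + 1) ≤ p ^ a * (2 * p) := Nat.mul_le_mul_left _ (by have := hp.two_le; omega)
      calc k < p ^ a * (p + 1) := hk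
        _ ≤ p ^ a * (2 * p) := this
        _ = 2 * p ^ (a + 1) := by rw [hQe]; ring
    refine (beyond p hp a z k h hk2 (z * (z - p)) (2 * a) ?_ (by omega)).trace
    push_cast
    ring

/-- **Ramified primes.** -/
theorem ram_case (p : ℕ) (hp : p.Prime) (a : ℕ) (c : ℤ) (e : QuadraticAlgebra ℤ A B)
    (h1 : (p : ℤ) ∣ B - 2 * c) (h2 : (p : ℤ) ∣ c ^ 2 - B * c - A) (k : ℕ)
    (hk : k < 2 * p ^ (a + 1)) :
    LD p k.factorial (QuadraticAlgebra.trace
      (P ((p : QuadraticAlgebra ℤ A B) ^ a * (e * (ω - ((c : ℤ) : QuadraticAlgebra ℤ A B)))) k)) := by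
  set π : QuadraticAlgebra ℤ A B := ω - ((c : ℤ) : QuadraticAlgebra ℤ A B) with hπ
  have hsq : π ^ 2 = ((B - 2 * c : ℤ) : QuadraticAlgebra ℤ A B) * π -
      ((c ^ 2 - B * c - A : ℤ) : QuadraticAlgebra ℤ A B) := by
    rw [hπ]
    ext <;> simp [pow_two] <;> ring
  obtain ⟨t, ht⟩ := h1
  obtain ⟨w, hw⟩ := h2
  have hsq2 : π ^ 2 = (p : QuadraticAlgebra ℤ A B) * (((t : ℤ) : QuadraticAlgebra ℤ A B) * π -
      ((w : ℤ) : QuadraticAlgebra ℤ A B)) := by
    rw [hsq, ht, hw]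
    push_cast
    ring
  have htr : ∀ V : QuadraticAlgebra ℤ A B, (p : ℤ) ∣ QuadraticAlgebra.trace (π * V) := by
    intro V
    have e1 : QuadraticAlgebra.trace (π * V) = (B - 2 * c) * (V.re + (B - c) * V.im) -
        2 * (c ^ 2 - B * c - A) * V.im := by
      rw [hπ, trace_def]
      simp
      ring
    rw [e1, ht, hw]
    exact ⟨t * (V.re + (B - c) * V.im) - 2 * w * V.im, by ring⟩
  rcases Nat.lt_trichotomy k (p ^ (a + 1)) with h | h | h
  · exact (good p hp a _ k h).trace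
  · rw [h]
    set Q := p ^ (a + 1) with hQ
    have hQ0 : 0 < Q := pow_pos hp.pos _
    obtain ⟨N, hN, V, hV⟩ := tail p hp a (e * π) (Ico 1 Q) fun j hj => by
      rw [mem_Ico] at hj
      exact ⟨by omega, fac_le p hp a j (by omega) hj.2⟩
    refine ⟨N, hN, ?_⟩
    rw [P_split _ _ hQ0, fact_eq Q hQ0, ← trace_nat_mul]
    have e2 : (N : QuadraticAlgebra ℤ A B) * ((p : QuadraticAlgebra ℤ A B) ^ a * (e * π) *
        ∏ j ∈ Ico 1 Q, ((p : QuadraticAlgebra ℤ A B) ^ a * (e * π) - j)) =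
        ((p ^ a * ∏ j ∈ Ico 1 Q, j : ℕ) : QuadraticAlgebra ℤ A B) * (π * (e * V)) := by
      calc _ = (p : QuadraticAlgebra ℤ A B) ^ a * (e * π) * ((N : QuadraticAlgebra ℤ A B) *
            ∏ j ∈ Ico 1 Q, ((p : QuadraticAlgebra ℤ A B) ^ a * (e * π) - j)) := by ring
        _ = _ := by
            rw [hV]
            push_cast
            ring
    rw [e2, trace_nat_mul]
    obtain ⟨y, hy⟩ := htr (e * V)
    refine ⟨y, ?_⟩
    rw [hy, hQ]
    push_cast
    ring
  · have hkv : k.factorization p < a + 1 := by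
      by_contra hcon
      have h1 : p ^ (a + 1) ∣ k := (pow_dvd_pow p (by omega)).trans (Nat.ordProj_dvd k p)
      obtain ⟨c, hc⟩ := h1
      rw [hc] at h hk
      have hQ0 : 0 < p ^ (a + 1) := pow_pos hp.pos _
      have h2 : 1 < c := by
        by_contra h3
        have : p ^ (a + 1) * c ≤ p ^ (a + 1) * 1 := Nat.mul_le_mul_left _ (by omega)
        omega
      have : p ^ (a + 1) * 2 ≤ p ^ (a + 1) * c := Nat.mul_le_mul_left _ h2
      omega
    refine (beyond p hp a (e * π) k h hk (e ^ 2 * (((t : ℤ) : QuadraticAlgebra ℤ A B) * π -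
      ((w : ℤ) : QuadraticAlgebra ℤ A B)) - e * π) (2 * a + 1) ?_ (by omega)).trace
    have e3 : (p : QuadraticAlgebra ℤ A B) ^ a * (e * π) * ((p : QuadraticAlgebra ℤ A B) ^ a * (e * π) -
        ((p ^ (a + 1) : ℕ) : QuadraticAlgebra ℤ A B)) = (p : QuadraticAlgebra ℤ A B) ^ (2 * a) * (e ^ 2 * π ^ 2 - p * (e * π)) := by
      push_cast
      ring
    rw [e3, hsq2]
    ring

end Pool.Agent.T2H43.RQ
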