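import Pool.Agent.T2H43.RQ.Quad

set_option autoImplicit false

/-! Split primes. -/

namespace Pool.Agent.T2H43.RQ

open Finset QuadraticAlgebra

variable {A B : ℤ}

/-- Hensel -/
lemma exists_root (A B : ℤ) (p : ℕ) (hp : p.Prime)
    (h : ∃ t : ℤ, (p : ℤ) ∣ t ^ 2 - B * t - A ∧ ¬ (p : ℤ) ∣ 2 * t - B) (e : ℕ) :
    ∃ a : ℤ, (p : ℤ) ^ e ∣ a ^ 2 - B * a - A ∧ ¬ (p : ℤ) ∣ 2 * a - B := by
  have hpi := Nat.prime_iff_prime_int.1 hp
  induction e with
  | zero =>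
    obtain ⟨t, _, ht⟩ := h
    exact ⟨t, by rw [pow_zero]; exact one_dvd _, ht⟩
  | succ e ih =>
    rcases Nat.eq_zero_or_pos e with he | he
    · obtain ⟨t, ht, ht'⟩ := h
      exact ⟨t, by rw [he, zero_add, pow_one]; exact ht, ht'⟩
    · obtain ⟨a, ⟨c, hc⟩, ha⟩ := ih
      obtain ⟨u, v, huv⟩ := (Irreducible.coprime_iff_not_dvd hpi.irreducible).mpr ha
      obtain ⟨e', rfl⟩ : ∃ e', e = e' + 1 := ⟨e - 1, by omega⟩
      refine ⟨a - (p : ℤ) ^ (e' + 1) * (c * v), ⟨c * u + (p : ℤ) ^ e' * (c * v) ^ 2, ?_⟩, ?_⟩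
      · have h1 : v * (2 * a - B) = 1 - u * p := by linarith
        calc (a - (p : ℤ) ^ (e' + 1) * (c * v)) ^ 2 - B * (a - (p : ℤ) ^ (e' + 1) * (c * v)) - A
            = (a ^ 2 - B * a - A) - (p : ℤ) ^ (e' + 1) * c * (v * (2 * a - B)) +
              (p : ℤ) ^ (e' + 1) * (p : ℤ) ^ (e' + 1) * (c * v) ^ 2 := by ring
          _ = (p : ℤ) ^ (e' + 1 + 1) * (c * u + (p : ℤ) ^ e' * (c * v) ^ 2) := by
              rw [hc, h1]
              ring
      · intro h1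
        apply ha
        have e1 : 2 * a - B = (2 * (a - (p : ℤ) ^ (e' + 1) * (c * v)) - B) +
            (p : ℤ) * (2 * (p : ℤ) ^ e' * (c * v)) := by ring
        rw [e1]
        exact dvd_add h1 (dvd_mul_right _ _)

theorem split_case (p : ℕ) (hp : p.Prime)
    (h : ∃ t : ℤ, (p : ℤ) ∣ t ^ 2 - B * t - A ∧ ¬ (p : ℤ) ∣ 2 * t - B)
    (X : QuadraticAlgebra ℤ A B) (k : ℕ) :
    LD p k.factorial (QuadraticAlgebra.trace (P X k)) := by
  set e := k.factorial.factorization p with he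
  obtain ⟨a, ha, _⟩ := exists_root A B p hp h e
  have ha' : (a : ZMod (p ^ e)) * (a : ZMod (p ^ e)) = A • (1 : ZMod (p ^ e)) + B • (a : ZMod (p ^ e)) := by
    have h1 : (((a ^ 2 - B * a - A : ℤ)) : ZMod (p ^ e)) = 0 := by
      rw [ZMod.intCast_zmod_eq_zero_iff_dvd]
      exact_mod_cast ha
    push_cast at h1
    rw [zsmul_eq_mul, zsmul_eq_mul]
    linear_combination h1
  let ψ : QuadraticAlgebra ℤ A B →+* ZMod (p ^ e) :=
    (QuadraticAlgebra.lift ⟨(a : ZMod (p ^ e)), ha'⟩ : QuadraticAlgebra ℤ A B →ₐ[ℤ] ZMod (p ^ e)).toRingHom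
  have hψ : ∀ z : QuadraticAlgebra ℤ A B, ψ z = ((z.re + z.im * a : ℤ) : ZMod (p ^ e)) := by
    intro z
    change z.re • (1 : ZMod (p ^ e)) + z.im • (a : ZMod (p ^ e)) = _
    rw [zsmul_eq_mul, zsmul_eq_mul]
    push_cast
    ring
  have hzero : ∀ z : QuadraticAlgebra ℤ A B, ψ (P z k) = 0 := by
    intro z
    rw [P_map, hψ]
    have h1 := P_map (Int.castRingHom (ZMod (p ^ e))) (z.re + z.im * a) k
    rw [eq_intCast, eq_intCast] at h1
    rw [← h1, ZMod.intCast_zmod_eq_zero_iff_dvd]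
    refine dvd_trans ?_ (P_int _ k)
    exact_mod_cast Nat.ordProj_dvd _ p
  have hstar : star (P X k) = P (star X) k := by
    have := P_map (starRingEnd (QuadraticAlgebra ℤ A B)) X k
    exact this
  have h3 : ψ (((QuadraticAlgebra.trace (P X k) : ℤ)) : QuadraticAlgebra ℤ A B) = 0 := by
    rw [trace_cast, map_add, hzero, hstar, hzero, add_zero]
  rw [map_intCast, ZMod.intCast_zmod_eq_zero_iff_dvd] at h3
  obtain ⟨c, hc⟩ := h3
  refine ⟨k.factorial / p ^ e, Nat.not_dvd_ordCompl hp (Nat.factorial_ne_zero k), c, ?_⟩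
  rw [hc]
  have h4 : p ^ e * (k.factorial / p ^ e) = k.factorial := Nat.ordProj_mul_ordCompl_eq_self _ p
  calc ((k.factorial / p ^ e : ℕ) : ℤ) * (((p ^ e : ℕ) : ℤ) * c)
      = ((p ^ e * (k.factorial / p ^ e) : ℕ) : ℤ) * c := by push_cast; ring
    _ = (k.factorial : ℤ) * c := by rw [h4]

end Pool.Agent.T2H43.RQ
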